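import Pool.Agent.Q113.MS.Stm

/-!
# Project MS (helper113): the fourth moment of the sums over `k`-subsets (`S_MO4`)
-/

set_option autoImplicit false

namespace Pool.Agent.Q150.MS

open Finset Pool.Agent.Q113.MS

variable {α : Type} [DecidableEq α]

/-- double counting -/
theorem dc (V : Finset α) (k : ℕ) (G : Finset α → ℝ) :
    ((k : ℝ) + 1) * ∑ T ∈ V.powersetCard (k + 1), G T =
      ∑ S ∈ V.powersetCard k, ∑ i ∈ V \ S, G (insert i S) := by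
  have h1 : ((k : ℝ) + 1) * ∑ T ∈ V.powersetCard (k + 1), G T =
      ∑ T ∈ V.powersetCard (k + 1), ∑ _i ∈ T, G T := by
    rw [mul_sum]
    refine sum_congr rfl fun T hT => ?_
    rw [sum_const, nsmul_eq_mul, (mem_powersetCard.1 hT).2]
    push_cast
    ring
  rw [h1, Finset.sum_sigma', Finset.sum_sigma']
  refine Finset.sum_bij' (fun x _ => ⟨x.1.erase x.2, x.2⟩) (fun x _ => ⟨insert x.2 x.1, x.2⟩)
    ?_ ?_ ?_ ?_ ?_
  · rintro ⟨T, i⟩ h
    rw [mem_sigma, mem_powersetCard] at h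
    obtain ⟨⟨h2, h3⟩, h4⟩ := h
    rw [mem_sigma, mem_powersetCard, mem_sdiff]
    refine ⟨⟨(erase_subset _ _).trans h2, ?_⟩, h2 h4, notMem_erase _ _⟩
    rw [card_erase_of_mem h4, h3]
    rfl
  · rintro ⟨S, i⟩ h
    rw [mem_sigma, mem_powersetCard, mem_sdiff] at h
    obtain ⟨⟨h2, h3⟩, h4, h5⟩ := h
    rw [mem_sigma, mem_powersetCard]
    refine ⟨⟨insert_subset h4 h2, ?_⟩, mem_insert_self _ _⟩
    rw [card_insert_of_notMem h5, h3]
  · rintro ⟨T, i⟩ h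
    rw [mem_sigma] at h
    simp only [insert_erase h.2]
  · rintro ⟨S, i⟩ h
    rw [mem_sigma, mem_sdiff] at h
    simp only [erase_insert h.2.2]
  · rintro ⟨T, i⟩ h
    rw [mem_sigma] at h
    simp only [insert_erase h.2]

/-- the moments -/
theorem moments (V : Finset α) (z : α → ℝ) (hm : 4 ≤ V.card) (h0 : ∑ i ∈ V, z i = 0) :
    ∀ k : ℕ, k ≤ V.card →
    (∑ S ∈ V.powersetCard k, (∑ i ∈ S, z i) = 0) ∧
    (∑ S ∈ V.powersetCard k, (∑ i ∈ S, z i ^ 2) =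
      (V.card.choose k : ℝ) * (k / V.card * ∑ i ∈ V, z i ^ 2)) ∧
    (∑ S ∈ V.powersetCard k, (∑ i ∈ S, z i ^ 4) =
      (V.card.choose k : ℝ) * (k / V.card * ∑ i ∈ V, z i ^ 4)) ∧
    (∑ S ∈ V.powersetCard k, (∑ i ∈ S, z i) ^ 2 =
      (V.card.choose k : ℝ) * (k * (V.card - k) / (V.card * (V.card - 1)) * ∑ i ∈ V, z i ^ 2)) ∧
    (∑ S ∈ V.powersetCard k, (∑ i ∈ S, z i ^ 2) ^ 2 =
      (V.card.choose k : ℝ) * (k / V.card * (∑ i ∈ V, z i ^ 4) +
        k * (k - 1) / (V.card * (V.card - 1)) * ((∑ i ∈ V, z i ^ 2) ^ 2 - ∑ i ∈ V, z i ^ 4))) ∧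
    (∑ S ∈ V.powersetCard k, (∑ i ∈ S, z i) * (∑ i ∈ S, z i ^ 3) =
      (V.card.choose k : ℝ) * (k * (V.card - k) / (V.card * (V.card - 1)) * ∑ i ∈ V, z i ^ 4)) ∧
    (∑ S ∈ V.powersetCard k, (∑ i ∈ S, z i) ^ 2 * (∑ i ∈ S, z i ^ 2) =
      (V.card.choose k : ℝ) * (k / V.card * (∑ i ∈ V, z i ^ 4) +
        k * (k - 1) / (V.card * (V.card - 1)) *
          ((∑ i ∈ V, z i ^ 2) ^ 2 - 3 * ∑ i ∈ V, z i ^ 4) +
        k * (k - 1) * (k - 2) / (V.card * (V.card - 1) * (V.card - 2)) *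
          (2 * (∑ i ∈ V, z i ^ 4) - (∑ i ∈ V, z i ^ 2) ^ 2))) ∧
    (∑ S ∈ V.powersetCard k, (∑ i ∈ S, z i) ^ 4 =
      (V.card.choose k : ℝ) * (k / V.card * (∑ i ∈ V, z i ^ 4) +
        k * (k - 1) / (V.card * (V.card - 1)) *
          (3 * (∑ i ∈ V, z i ^ 2) ^ 2 - 7 * ∑ i ∈ V, z i ^ 4) +
        6 * (k * (k - 1) * (k - 2) / (V.card * (V.card - 1) * (V.card - 2))) *
          (2 * (∑ i ∈ V, z i ^ 4) - (∑ i ∈ V, z i ^ 2) ^ 2) +
        k * (k - 1) * (k - 2) * (k - 3) /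
          (V.card * (V.card - 1) * (V.card - 2) * (V.card - 3)) *
          (3 * (∑ i ∈ V, z i ^ 2) ^ 2 - 6 * ∑ i ∈ V, z i ^ 4))) := by
  obtain ⟨Q, hQ⟩ : ∃ Q, Q = ∑ i ∈ V, z i ^ 2 := ⟨_, rfl⟩
  obtain ⟨R, hR⟩ : ∃ R, R = ∑ i ∈ V, z i ^ 3 := ⟨_, rfl⟩
  obtain ⟨U, hU⟩ : ∃ U, U = ∑ i ∈ V, z i ^ 4 := ⟨_, rfl⟩
  rw [← hQ, ← hU]
  have hmR : (4 : ℝ) ≤ V.card := by exact_mod_cast hm
  obtain ⟨m, hmm⟩ : ∃ m : ℝ, m = V.card := ⟨_, rfl⟩
  rw [← hmm] at hmR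
  have m0 : m ≠ 0 := by linarith
  have m1 : m - 1 ≠ 0 := by intro h; linarith
  have m2 : m - 2 ≠ 0 := by intro h; linarith
  have m3 : m - 3 ≠ 0 := by intro h; linarith
  rw [← hmm]
  intro k
  induction k with
  | zero =>
    intro _
    simp
  | succ k ih =>
    intro hk
    obtain ⟨a1, a2, a3, a4, a5, a6, a7, a8⟩ := ih (by omega)
    have hk1 : ((k : ℝ) + 1) ≠ 0 := by positivity
    have hchoose : ((V.card.choose (k + 1) : ℕ) : ℝ) * ((k : ℝ) + 1) =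
        (V.card.choose k : ℝ) * (m - k) := by
      have h1 := Nat.choose_succ_right_eq V.card k
      have h2 : ((V.card.choose (k + 1) * (k + 1) : ℕ) : ℝ) =
          ((V.card.choose k * (V.card - k) : ℕ) : ℝ) := by exact_mod_cast h1
      push_cast [Nat.cast_sub (by omega : k ≤ V.card)] at h2
      rw [hmm]
      exact h2
    have hN : ((V.card.choose (k + 1) : ℕ) : ℝ) = (V.card.choose k : ℝ) * (m - k) / (k + 1) := by
      rw [eq_div_iff hk1]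
      exact hchoose
    obtain ⟨N, hNd⟩ : ∃ N : ℝ, N = (V.card.choose k : ℝ) := ⟨_, rfl⟩
    rw [← hNd] at a2 a3 a4 a5 a6 a7 a8 hN
    rw [hN]
    -- the sums over the complement
    have hsub : ∀ S ∈ V.powersetCard k, ∀ f : α → ℝ, ∑ i ∈ V \ S, f i =
        ∑ i ∈ V, f i - ∑ i ∈ S, f i := by
      intro S hS f
      have h1 := sum_sdiff (f := f) (mem_powersetCard.1 hS).1
      linarith
    have hcard : ∀ S ∈ V.powersetCard k, ((V \ S).card : ℝ) = m - k := by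
      intro S hS
      obtain ⟨h1, h2⟩ := mem_powersetCard.1 hS
      rw [card_sdiff_of_subset h1, h2, Nat.cast_sub (by omega), hmm]
    have hins : ∀ S : Finset α, ∀ i ∈ V \ S, ∀ f : α → ℝ, ∑ j ∈ insert i S, f j =
        f i + ∑ j ∈ S, f j := by
      intro S i hi f
      exact sum_insert (mem_sdiff.1 hi).2
    have key : ∀ (G : Finset α → ℝ) (H : Finset α → ℝ),
        (∀ S ∈ V.powersetCard k, ∑ i ∈ V \ S, G (insert i S) = H S) →
        ∑ T ∈ V.powersetCard (k + 1), G T = (∑ S ∈ V.powersetCard k, H S) / (k + 1) := by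
      intro G H h
      rw [eq_div_iff hk1, mul_comm, dc]
      exact sum_congr rfl h
    have ones : ∑ _S ∈ V.powersetCard k, (1 : ℝ) = N := by
      rw [sum_const, card_powersetCard, nsmul_eq_mul, mul_one, hNd]
    -- notation for the sums
    have e1 := key (fun S => ∑ i ∈ S, z i) (fun S => (m - k - 1) * ∑ i ∈ S, z i) (by
      intro S hS
      have h1 : ∀ i ∈ V \ S, ∑ j ∈ insert i S, z j = z i + ∑ j ∈ S, z j := fun i hi =>
        hins S i hi _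
      rw [sum_congr rfl h1, sum_add_distrib, sum_const, nsmul_eq_mul, hcard S hS, hsub S hS, h0]
      ring)
    have e2 := key (fun S => ∑ i ∈ S, z i ^ 2) (fun S => (m - k - 1) * (∑ i ∈ S, z i ^ 2) + Q * 1) (by
      intro S hS
      have h1 : ∀ i ∈ V \ S, ∑ j ∈ insert i S, z j ^ 2 = z i ^ 2 + ∑ j ∈ S, z j ^ 2 := fun i hi =>
        hins S i hi (fun j => z j ^ 2)
      rw [sum_congr rfl h1, sum_add_distrib, sum_const, nsmul_eq_mul, hcard S hS,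
        hsub S hS (fun j => z j ^ 2), ← hQ]
      ring)
    have e3 := key (fun S => ∑ i ∈ S, z i ^ 4) (fun S => (m - k - 1) * (∑ i ∈ S, z i ^ 4) + U * 1) (by
      intro S hS
      have h1 : ∀ i ∈ V \ S, ∑ j ∈ insert i S, z j ^ 4 = z i ^ 4 + ∑ j ∈ S, z j ^ 4 := fun i hi =>
        hins S i hi (fun j => z j ^ 4)
      rw [sum_congr rfl h1, sum_add_distrib, sum_const, nsmul_eq_mul, hcard S hS,
        hsub S hS (fun j => z j ^ 4), ← hU]
      ring)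
    have e4 := key (fun S => (∑ i ∈ S, z i) ^ 2)
      (fun S => (m - k - 2) * (∑ i ∈ S, z i) ^ 2 - (∑ i ∈ S, z i ^ 2) + Q * 1) (by
      intro S hS
      obtain ⟨w, hw⟩ : ∃ w, w = ∑ j ∈ S, z j := ⟨_, rfl⟩
      have h1 : ∀ i ∈ V \ S, (∑ j ∈ insert i S, z j) ^ 2 = z i ^ 2 + 2 * w * z i + w ^ 2 := by
        intro i hi
        rw [hins S i hi z, ← hw]
        ring
      rw [sum_congr rfl h1, sum_add_distrib, sum_add_distrib, sum_const, nsmul_eq_mul,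
        hcard S hS, ← mul_sum, hsub S hS (fun j => z j ^ 2), hsub S hS z, h0, ← hQ, ← hw]
      ring)
    have e5 := key (fun S => (∑ i ∈ S, z i ^ 2) ^ 2)
      (fun S => (m - k - 2) * (∑ i ∈ S, z i ^ 2) ^ 2 + 2 * Q * (∑ i ∈ S, z i ^ 2) -
        (∑ i ∈ S, z i ^ 4) + U * 1) (by
      intro S hS
      obtain ⟨w, hw⟩ : ∃ w, w = ∑ j ∈ S, z j ^ 2 := ⟨_, rfl⟩
      have h1 : ∀ i ∈ V \ S, (∑ j ∈ insert i S, z j ^ 2) ^ 2 =
          z i ^ 4 + 2 * w * z i ^ 2 + w ^ 2 := by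
        intro i hi
        rw [hins S i hi (fun j => z j ^ 2), ← hw]
        ring
      rw [sum_congr rfl h1, sum_add_distrib, sum_add_distrib, sum_const, nsmul_eq_mul,
        hcard S hS, ← mul_sum, hsub S hS (fun j => z j ^ 2), hsub S hS (fun j => z j ^ 4), ← hQ,
        ← hU, ← hw]
      ring)
    have e6 := key (fun S => (∑ i ∈ S, z i) * (∑ i ∈ S, z i ^ 3))
      (fun S => (m - k - 2) * ((∑ i ∈ S, z i) * (∑ i ∈ S, z i ^ 3)) + R * (∑ i ∈ S, z i) -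
        (∑ i ∈ S, z i ^ 4) + U * 1) (by
      intro S hS
      obtain ⟨w, hw⟩ : ∃ w, w = ∑ j ∈ S, z j := ⟨_, rfl⟩
      obtain ⟨v, hv⟩ : ∃ v, v = ∑ j ∈ S, z j ^ 3 := ⟨_, rfl⟩
      have h1 : ∀ i ∈ V \ S, (∑ j ∈ insert i S, z j) * (∑ j ∈ insert i S, z j ^ 3) =
          z i ^ 4 + v * z i + w * z i ^ 3 + w * v := by
        intro i hi
        rw [hins S i hi z, hins S i hi (fun j => z j ^ 3), ← hw, ← hv]
        ring
      rw [sum_congr rfl h1, sum_add_distrib, sum_add_distrib, sum_add_distrib, sum_const,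
        nsmul_eq_mul, hcard S hS, ← mul_sum, ← mul_sum, hsub S hS z, hsub S hS (fun j => z j ^ 3),
        hsub S hS (fun j => z j ^ 4), h0, ← hR, ← hU, ← hw, ← hv]
      ring)
    have e7 := key (fun S => (∑ i ∈ S, z i) ^ 2 * (∑ i ∈ S, z i ^ 2))
      (fun S => (m - k - 3) * ((∑ i ∈ S, z i) ^ 2 * (∑ i ∈ S, z i ^ 2)) +
        Q * (∑ i ∈ S, z i) ^ 2 + 2 * R * (∑ i ∈ S, z i) -
        2 * ((∑ i ∈ S, z i) * (∑ i ∈ S, z i ^ 3)) + Q * (∑ i ∈ S, z i ^ 2) -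
        (∑ i ∈ S, z i ^ 2) ^ 2 - (∑ i ∈ S, z i ^ 4) + U * 1) (by
      intro S hS
      obtain ⟨w, hw⟩ : ∃ w, w = ∑ j ∈ S, z j := ⟨_, rfl⟩
      obtain ⟨v, hv⟩ : ∃ v, v = ∑ j ∈ S, z j ^ 2 := ⟨_, rfl⟩
      have h1 : ∀ i ∈ V \ S, (∑ j ∈ insert i S, z j) ^ 2 * (∑ j ∈ insert i S, z j ^ 2) =
          z i ^ 4 + 2 * w * z i ^ 3 + (w ^ 2 + v) * z i ^ 2 + 2 * w * v * z i + w ^ 2 * v := by
        intro i hi
        rw [hins S i hi z, hins S i hi (fun j => z j ^ 2), ← hw, ← hv]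
        ring
      rw [sum_congr rfl h1, sum_add_distrib, sum_add_distrib, sum_add_distrib, sum_add_distrib,
        sum_const, nsmul_eq_mul, hcard S hS, ← mul_sum, ← mul_sum, ← mul_sum, hsub S hS z,
        hsub S hS (fun j => z j ^ 2), hsub S hS (fun j => z j ^ 3),
        hsub S hS (fun j => z j ^ 4), h0, ← hQ, ← hR, ← hU, ← hw, ← hv]
      ring)
    have e8 := key (fun S => (∑ i ∈ S, z i) ^ 4)
      (fun S => (m - k - 4) * (∑ i ∈ S, z i) ^ 4 + 6 * Q * (∑ i ∈ S, z i) ^ 2 -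
        6 * ((∑ i ∈ S, z i) ^ 2 * (∑ i ∈ S, z i ^ 2)) + 4 * R * (∑ i ∈ S, z i) -
        4 * ((∑ i ∈ S, z i) * (∑ i ∈ S, z i ^ 3)) - (∑ i ∈ S, z i ^ 4) + U * 1) (by
      intro S hS
      obtain ⟨w, hw⟩ : ∃ w, w = ∑ j ∈ S, z j := ⟨_, rfl⟩
      have h1 : ∀ i ∈ V \ S, (∑ j ∈ insert i S, z j) ^ 4 =
          z i ^ 4 + 4 * w * z i ^ 3 + 6 * w ^ 2 * z i ^ 2 + 4 * w ^ 3 * z i + w ^ 4 := by
        intro i hi
        rw [hins S i hi z, ← hw]
        ring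
      rw [sum_congr rfl h1, sum_add_distrib, sum_add_distrib, sum_add_distrib, sum_add_distrib,
        sum_const, nsmul_eq_mul, hcard S hS, ← mul_sum, ← mul_sum, ← mul_sum, hsub S hS z,
        hsub S hS (fun j => z j ^ 2), hsub S hS (fun j => z j ^ 3),
        hsub S hS (fun j => z j ^ 4), h0, ← hQ, ← hR, ← hU, ← hw]
      ring)
    simp only [sum_add_distrib, sum_sub_distrib, ← mul_sum] at e1 e2 e3 e4 e5 e6 e7 e8
    rw [a1] at e1
    rw [a2, ones] at e2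
    rw [a3, ones] at e3
    rw [a4, a2, ones] at e4
    rw [a5, a2, a3, ones] at e5
    rw [a6, a1, a3, ones] at e6
    rw [a7, a4, a1, a6, a2, a5, a3, ones] at e7
    rw [a8, a4, a7, a1, a6, a3, ones] at e8
    rw [e1, e2, e3, e4, e5, e6, e7, e8]
    push_cast
    refine ⟨by ring, ?_, ?_, ?_, ?_, ?_, ?_, ?_⟩
    · field_simp
      ring
    · field_simp
      ring
    · field_simp
      ring
    · field_simp
      ring
    · field_simp
      ring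
    · field_simp
      ring
    · field_simp
      ring

/-- **MO4** -/
theorem t_MO4 : S_MO4 := by
  intro α _ V k z hk hkV hm h0
  obtain ⟨-, -, -, -, -, -, -, h⟩ := moments V z hm h0 k hkV
  rw [h]
  have hmR : (4 : ℝ) ≤ V.card := by exact_mod_cast hm
  obtain ⟨m, hmm⟩ : ∃ m : ℝ, m = V.card := ⟨_, rfl⟩
  rw [← hmm] at hmR ⊢
  have m0 : m ≠ 0 := by linarith
  have m1 : m - 1 ≠ 0 := by intro h; linarith
  have m2 : m - 2 ≠ 0 := by intro h; linarith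
  have m3 : m - 3 ≠ 0 := by intro h; linarith
  field_simp
  ring

end Pool.Agent.Q150.MS
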